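import Pool.Agent.K1H77.CG.Stm

/-! # Project CG (MP_992c04_co): the sum over all `σ` with given numbers (S_TERM) -/

set_option autoImplicit false

open Finset Filter Topology
open Pool.Agent.K1H77.CG

namespace Pool.Agent.K1H1.CG

theorem pow_div_fact_le (u j : ℕ) (h : j ≤ u) :
    ((u : ℝ) + 1) ^ j / (j.factorial : ℝ) ≤ Real.exp (2 * u) := by
  rcases Nat.eq_zero_or_pos u with h0 | h0
  · subst h0
    obtain rfl : j = 0 := by omega
    simp
  · have h1 : ((u : ℝ) + 1) ^ j / (j.factorial : ℝ) ≤ Real.exp ((u : ℝ) + 1) :=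
      Real.pow_div_factorial_le_exp _ (by positivity) _
    refine h1.trans (Real.exp_le_exp.mpr ?_)
    have : (1 : ℝ) ≤ u := by exact_mod_cast h0
    linarith

theorem one_add_sqrt_sq (a u : ℕ) (h : a ≤ 3 * u) :
    (1 + Real.sqrt a) ^ 2 ≤ 6 * ((u : ℝ) + 1) := by
  have h1 : Real.sqrt a ^ 2 = a := Real.sq_sqrt (Nat.cast_nonneg a)
  have h2 : (a : ℝ) ≤ 3 * u := by exact_mod_cast h
  nlinarith [sq_nonneg (1 - Real.sqrt a)]

theorem fm_le (h5 : S_FMR) (k a b : ℕ) (hk : 1 ≤ k) (ha : a ≤ 6 * k) (hb : b ≤ a) :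
    (fm (6 * k - a) : ℝ) ≤ fm (6 * k) * Real.sqrt ((2 / (3 * (k : ℝ))) ^ b) := by
  have hk' : (1 : ℝ) ≤ k := by exact_mod_cast hk
  rcases Nat.even_or_odd' a with ⟨j, rfl | rfl⟩
  · have h1 := h5 (3 * k) j (by omega)
    have e1 : 2 * (3 * k - j) = 6 * k - 2 * j := by omega
    have e2 : 2 * (3 * k) = 6 * k := by ring
    rw [e1, e2] at h1
    have h2 : (2 / (3 * (k : ℝ))) ^ j * (((3 * k : ℕ) : ℝ) / 2) ^ j = 1 := by
      rw [← mul_pow]
      push_cast
      rw [show (2 / (3 * (k : ℝ))) * (3 * (k : ℝ) / 2) = 1 by field_simp, one_pow]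
    have h0 : (0 : ℝ) ≤ (2 / (3 * (k : ℝ))) ^ j := by positivity
    have h3 : (fm (6 * k - 2 * j) : ℝ) ≤ fm (6 * k) * (2 / (3 * (k : ℝ))) ^ j := by
      calc (fm (6 * k - 2 * j) : ℝ)
          = fm (6 * k - 2 * j) * ((2 / (3 * (k : ℝ))) ^ j * (((3 * k : ℕ) : ℝ) / 2) ^ j) := by
            rw [h2, mul_one]
        _ = (fm (6 * k - 2 * j) * (((3 * k : ℕ) : ℝ) / 2) ^ j) * (2 / (3 * (k : ℝ))) ^ j := by ring
        _ ≤ fm (6 * k) * (2 / (3 * (k : ℝ))) ^ j := mul_le_mul_of_nonneg_right h1 h0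
    refine h3.trans (mul_le_mul_of_nonneg_left ?_ (Nat.cast_nonneg _))
    apply Real.le_sqrt_of_sq_le
    rw [← pow_mul, mul_comm j 2]
    apply pow_le_pow_of_le_one (by positivity) _ hb
    rw [div_le_one (by positivity)]
    linarith
  · have e1 : 6 * k - (2 * j + 1) = 2 * (3 * k - j - 1) + 1 := by omega
    rw [e1, fm_odd]
    push_cast
    positivity

theorem fixc_le (h1 : S_FIX) (h3 : S_GAM) (h5 : S_FMR) (k s m t : ℕ) (hk : 1 ≤ k)
    (π : Equiv.Perm (Fin (2 * k))) (σ : Equiv.Perm (HE (2 * k))) (hs : π.support.card = s)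
    (hm : π.cycleType.card = m) (hσ : ∀ h, (σ h).1 = π h.1) (ht : tch π σ = t) :
    (fixc σ : ℝ) ≤ fm (6 * k) * Real.sqrt ((2 / (3 * (k : ℝ))) ^ (3 * s + 2 * t)) *
      Real.sqrt ((6 * (((s + t : ℕ) : ℝ) + 1)) ^ (3 * m + t)) ∧ s + t ≤ 3 * k ∧ 2 * m ≤ s := by
  obtain ⟨g1, g2, g3⟩ := h3 (2 * k) π σ hσ
  rw [hs, ht] at g1 g2
  rw [hm, ht] at g3
  have hcard : Fintype.card (HE (2 * k)) = 6 * k := by
    simp only [Fintype.card_prod, Fintype.card_fin]
    ring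
  have ha : σ.support.card ≤ 6 * k := by
    rw [← hcard]
    exact Finset.card_le_univ _
  have hms : 2 * m ≤ s := by
    rw [← hs, ← hm, ← Equiv.Perm.sum_cycleType, mul_comm]
    have := Multiset.card_nsmul_le_sum (s := π.cycleType) (a := 2)
      (fun x hx => Equiv.Perm.two_le_of_mem_cycleType hx)
    simpa using this
  refine ⟨?_, by omega, hms⟩
  have f1 := h1 (HE (2 * k)) σ
  rw [hcard] at f1
  have f2 := fm_le h5 k σ.support.card (3 * s + 2 * t) hk ha g1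
  have f3 : (1 + Real.sqrt σ.support.card) ^ σ.cycleType.card ≤
      Real.sqrt ((6 * (((s + t : ℕ) : ℝ) + 1)) ^ (3 * m + t)) := by
    apply Real.le_sqrt_of_sq_le
    rw [← pow_mul, mul_comm _ 2, pow_mul]
    have b1 := one_add_sqrt_sq σ.support.card (s + t) (by omega)
    calc ((1 + Real.sqrt σ.support.card) ^ 2) ^ σ.cycleType.card
        ≤ (6 * (((s + t : ℕ) : ℝ) + 1)) ^ σ.cycleType.card :=
          pow_le_pow_left₀ (by positivity) b1 _
      _ ≤ (6 * (((s + t : ℕ) : ℝ) + 1)) ^ (3 * m + t) := by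
          apply pow_le_pow_right₀ _ g3
          have : (0 : ℝ) ≤ ((s + t : ℕ) : ℝ) := Nat.cast_nonneg _
          linarith
  refine f1.trans ?_
  exact mul_le_mul f2 f3 (by positivity) (by positivity)

/-- the final estimate -/
theorem final_le (k s m t : ℕ) (hk : 1 ≤ k) (hst : s + t ≤ 3 * k) (hms : 2 * m ≤ s) :
    (((2 * k : ℝ)) ^ s * 2 ^ s / (m.factorial : ℝ)) * (6 ^ s * (6 * (2 * k : ℝ)) ^ t /
      (t.factorial : ℝ)) * (Real.sqrt ((2 / (3 * (k : ℝ))) ^ (3 * s + 2 * t)) *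
      Real.sqrt ((6 * (((s + t : ℕ) : ℝ) + 1)) ^ (3 * m + t))) ≤
    ((111 * Real.exp 3) / (k : ℝ) ^ (1 / 4 : ℝ)) ^ s *
      ((20 * Real.exp 3) ^ t / Real.sqrt t.factorial) := by
  have hk' : (1 : ℝ) ≤ k := by exact_mod_cast hk
  have hk0 : (0 : ℝ) < k := by linarith
  set q : ℝ := Real.sqrt k with hq
  have hq0 : 0 < q := Real.sqrt_pos.mpr hk0
  have hq1 : 1 ≤ q := Real.one_le_sqrt.mpr hk'
  have hqk : (k : ℝ) = q ^ 2 := (Real.sq_sqrt hk0.le).symm
  have hkq : ((k : ℝ) ^ (1 / 4 : ℝ)) ^ 2 = q := by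
    rw [hq, Real.sqrt_eq_rpow, ← Real.rpow_natCast, ← Real.rpow_mul hk0.le]
    norm_num
  have hr0 : 0 < (k : ℝ) ^ (1 / 4 : ℝ) := Real.rpow_pos_of_pos hk0 _
  have hE : Real.exp 3 ^ 2 = Real.exp 6 := by
    rw [← Real.exp_nat_mul]; norm_num
  set u : ℝ := ((s + t : ℕ) : ℝ) + 1 with hu
  have hu0 : 0 < u := by positivity
  have hu4 : u ≤ 4 * k := by
    have : ((s + t : ℕ) : ℝ) ≤ 3 * k := by exact_mod_cast hst
    rw [hu]; linarith
  have hm0 : (0 : ℝ) < m.factorial := by exact_mod_cast Nat.factorial_pos m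
  have ht0 : (0 : ℝ) < t.factorial := by exact_mod_cast Nat.factorial_pos t
  -- squares
  refine abs_le_of_sq_le_sq' ?_ (by positivity) |>.2
  have sq1 : Real.sqrt ((2 / (3 * (k : ℝ))) ^ (3 * s + 2 * t)) ^ 2 =
      (2 / (3 * (k : ℝ))) ^ (3 * s + 2 * t) := Real.sq_sqrt (by positivity)
  have sq2 : Real.sqrt ((6 * u) ^ (3 * m + t)) ^ 2 = (6 * u) ^ (3 * m + t) :=
    Real.sq_sqrt (by positivity)
  have sq3 : Real.sqrt (t.factorial : ℝ) ^ 2 = t.factorial := Real.sq_sqrt ht0.le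
  have L : ((((2 * k : ℝ)) ^ s * 2 ^ s / (m.factorial : ℝ)) * (6 ^ s * (6 * (2 * k : ℝ)) ^ t /
      (t.factorial : ℝ)) * (Real.sqrt ((2 / (3 * (k : ℝ))) ^ (3 * s + 2 * t)) *
      Real.sqrt ((6 * u) ^ (3 * m + t)))) ^ 2 =
      (512 / 3 / q ^ 2) ^ s * 64 ^ t * (6 ^ (3 * m) * 6 ^ t) * (u ^ m / m.factorial) ^ 2 *
        (u ^ t / t.factorial) * u ^ m / t.factorial := by
    rw [mul_pow _ (_ * _) 2, mul_pow (Real.sqrt _) (Real.sqrt _) 2, sq1, sq2]
    have e1 : (2 / (3 * (k : ℝ))) ^ (3 * s + 2 * t) = ((2 / (3 * (k : ℝ))) ^ 3) ^ s *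
      ((2 / (3 * (k : ℝ))) ^ 2) ^ t := by rw [pow_add, pow_mul, pow_mul]
    have e2 : (6 * u) ^ (3 * m + t) = 6 ^ (3 * m) * 6 ^ t * (u ^ m) ^ 2 * u ^ m * u ^ t := by
      rw [mul_pow, pow_add, pow_add]
      ring
    have e3 : (512 / 3 / q ^ 2) ^ s = (((2 * (k : ℝ)) ^ 2 * 4 * 36) * (2 / (3 * (k : ℝ))) ^ 3) ^ s := by
      congr 1
      rw [hqk]
      field_simp
      norm_num
    have e4 : (64 : ℝ) ^ t = ((6 * (2 * (k : ℝ))) ^ 2 * (2 / (3 * (k : ℝ))) ^ 2) ^ t := by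
      congr 1
      field_simp
      norm_num
    rw [e1, e2, e3, e4]
    rw [mul_pow _ (((2 / (3 * (k : ℝ))) ^ 3)) s, mul_pow _ (((2 / (3 * (k : ℝ))) ^ 2)) t]
    have e5 : ((2 * (k : ℝ)) ^ 2 * 4 * 36) ^ s = ((2 * (k : ℝ)) ^ s * 2 ^ s * 6 ^ s) ^ 2 := by
      rw [← mul_pow, ← mul_pow, ← pow_mul, mul_comm s 2, pow_mul]
      congr 1
      ring
    have e6 : ((6 * (2 * (k : ℝ))) ^ 2) ^ t = ((6 * (2 * (k : ℝ))) ^ t) ^ 2 := by
      rw [← pow_mul, ← pow_mul, mul_comm 2 t]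
    rw [e5, e6]
    field_simp
  have R : (((111 * Real.exp 3) / (k : ℝ) ^ (1 / 4 : ℝ)) ^ s *
      ((20 * Real.exp 3) ^ t / Real.sqrt t.factorial)) ^ 2 =
      (12321 * Real.exp 6 / q) ^ s * (400 * Real.exp 6) ^ t / t.factorial := by
    rw [mul_pow, div_pow _ (Real.sqrt _), sq3, ← pow_mul, ← pow_mul, mul_comm s 2, mul_comm t 2,
      pow_mul, pow_mul, div_pow, hkq, mul_pow, mul_pow (20 : ℝ), hE]
    norm_num
    ring
  rw [L, R]
  have d1 : u ^ m / m.factorial ≤ Real.exp (2 * ((s + t : ℕ) : ℝ)) :=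
    pow_div_fact_le (s + t) m (by omega)
  have d2 : u ^ t / t.factorial ≤ Real.exp (2 * ((s + t : ℕ) : ℝ)) :=
    pow_div_fact_le (s + t) t (by omega)
  have d3 : u ^ m ≤ (2 * q) ^ s := by
    calc u ^ m ≤ (4 * k) ^ m := pow_le_pow_left₀ hu0.le hu4 m
      _ = (2 * q) ^ (2 * m) := by
          rw [pow_mul, hqk]
          congr 1
          ring
      _ ≤ (2 * q) ^ s := pow_le_pow_right₀ (by linarith) hms
  have d4 : (6 : ℝ) ^ (3 * m) ≤ 36 ^ s := by
    calc (6 : ℝ) ^ (3 * m) ≤ 6 ^ (2 * s) := pow_le_pow_right₀ (by norm_num) (by omega)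
      _ = 36 ^ s := by rw [pow_mul]; norm_num
  have d5 : Real.exp (2 * ((s + t : ℕ) : ℝ)) ^ 2 * Real.exp (2 * ((s + t : ℕ) : ℝ)) =
      Real.exp 6 ^ s * Real.exp 6 ^ t := by
    rw [← pow_succ, ← Real.exp_nat_mul, ← Real.exp_nat_mul, ← Real.exp_nat_mul, ← Real.exp_add]
    congr 1
    push_cast
    ring
  apply div_le_div_of_nonneg_right _ ht0.le
  calc (512 / 3 / q ^ 2) ^ s * 64 ^ t * (6 ^ (3 * m) * 6 ^ t) * (u ^ m / m.factorial) ^ 2 *
        (u ^ t / t.factorial) * u ^ m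
      ≤ (512 / 3 / q ^ 2) ^ s * 64 ^ t * (36 ^ s * 6 ^ t) *
        (Real.exp (2 * ((s + t : ℕ) : ℝ))) ^ 2 *
        Real.exp (2 * ((s + t : ℕ) : ℝ)) * (2 * q) ^ s := by gcongr
    _ = (512 / 3 / q ^ 2) ^ s * 64 ^ t * (36 ^ s * 6 ^ t) *
        (Real.exp 6 ^ s * Real.exp 6 ^ t) * (2 * q) ^ s := by rw [← d5]; ring
    _ = (512 / 3 / q ^ 2 * 36 * Real.exp 6 * (2 * q)) ^ s * (64 * 6 * Real.exp 6) ^ t := by
        simp only [mul_pow]
        ring
    _ = (12288 * Real.exp 6 / q) ^ s * (384 * Real.exp 6) ^ t := by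
        congr 2
        · field_simp
          norm_num
        · norm_num
    _ ≤ (12321 * Real.exp 6 / q) ^ s * (400 * Real.exp 6) ^ t := by
        gcongr <;> norm_num

open Classical in
/-- the sum over all `σ` with given numbers -/
theorem t_TERM (h1 : S_FIX) (h2 : S_PERMS) (h3 : S_GAM) (h4 : S_WRC) (h5 : S_FMR) : S_TERM := by
  refine ⟨111 * Real.exp 3, 20 * Real.exp 3, by positivity, by positivity, ?_⟩
  intro k s m t hk
  have hk' : (1 : ℝ) ≤ k := by exact_mod_cast hk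
  have hk0 : (0 : ℝ) < k := by linarith
  have hm0 : (0 : ℝ) < m.factorial := by exact_mod_cast Nat.factorial_pos m
  have ht0 : (0 : ℝ) < t.factorial := by exact_mod_cast Nat.factorial_pos t
  have hfm0 : (0 : ℝ) ≤ fm (6 * k) := Nat.cast_nonneg _
  set X : ℝ := Real.sqrt ((2 / (3 * (k : ℝ))) ^ (3 * s + 2 * t)) *
      Real.sqrt ((6 * (((s + t : ℕ) : ℝ) + 1)) ^ (3 * m + t)) with hX
  have hX0 : 0 ≤ X := by positivity
  have hR0 : 0 ≤ (fm (6 * k) : ℝ) * ((111 * Real.exp 3) / (k : ℝ) ^ (1 / 4 : ℝ)) ^ s *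
      ((20 * Real.exp 3) ^ t / Real.sqrt t.factorial) := by positivity
  by_cases hne : ∃ (π : Equiv.Perm (Fin (2 * k))) (σ : Equiv.Perm (HE (2 * k))),
      (π.support.card = s ∧ π.cycleType.card = m) ∧ ((∀ h, (σ h).1 = π h.1) ∧ tch π σ = t)
  · obtain ⟨π0, σ0, ⟨a1, a2⟩, a3, a4⟩ := hne
    obtain ⟨-, hst, hms⟩ := fixc_le h1 h3 h5 k s m t hk π0 σ0 a1 a2 a3 a4
    have hfin := final_le k s m t hk hst hms
    rw [← hX] at hfin
    calc ∑ π ∈ univ.filter (fun π : Equiv.Perm (Fin (2 * k)) =>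
            π.support.card = s ∧ π.cycleType.card = m),
          ∑ σ ∈ univ.filter (fun σ : Equiv.Perm (HE (2 * k)) =>
            (∀ h, (σ h).1 = π h.1) ∧ tch π σ = t), (fixc σ : ℝ)
        ≤ ∑ π ∈ univ.filter (fun π : Equiv.Perm (Fin (2 * k)) =>
            π.support.card = s ∧ π.cycleType.card = m),
          ((6 : ℝ) ^ s * (6 * (2 * k : ℝ)) ^ t / t.factorial) * (fm (6 * k) * X) := by
          apply Finset.sum_le_sum
          intro π hπ
          obtain ⟨b1, b2⟩ := (Finset.mem_filter.mp hπ).2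
          have hc := h4 (2 * k) t π
          rw [b1] at hc
          calc ∑ σ ∈ univ.filter (fun σ : Equiv.Perm (HE (2 * k)) =>
                (∀ h, (σ h).1 = π h.1) ∧ tch π σ = t), (fixc σ : ℝ)
              ≤ ∑ σ ∈ univ.filter (fun σ : Equiv.Perm (HE (2 * k)) =>
                (∀ h, (σ h).1 = π h.1) ∧ tch π σ = t), (fm (6 * k) * X) := by
                apply Finset.sum_le_sum
                intro σ hσ
                obtain ⟨c1, c2⟩ := (Finset.mem_filter.mp hσ).2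
                have := (fixc_le h1 h3 h5 k s m t hk π σ b1 b2 c1 c2).1
                rw [hX]
                linarith [this]
            _ = ((univ.filter (fun σ : Equiv.Perm (HE (2 * k)) =>
                (∀ h, (σ h).1 = π h.1) ∧ tch π σ = t)).card : ℝ) * (fm (6 * k) * X) := by
                rw [Finset.sum_const, nsmul_eq_mul]
            _ ≤ ((6 : ℝ) ^ s * (6 * (2 * k : ℝ)) ^ t / t.factorial) * (fm (6 * k) * X) := by
                apply mul_le_mul_of_nonneg_right _ (by positivity)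
                rw [le_div_iff₀ ht0]
                have hc' : (((univ.filter (fun σ : Equiv.Perm (HE (2 * k)) =>
                  (∀ h, (σ h).1 = π h.1) ∧ tch π σ = t)).card * t.factorial : ℕ) : ℝ) ≤
                  ((6 ^ s * (6 * (2 * k)) ^ t : ℕ) : ℝ) := by exact_mod_cast hc
                push_cast at hc'
                exact hc'
      _ = ((univ.filter (fun π : Equiv.Perm (Fin (2 * k)) =>
            π.support.card = s ∧ π.cycleType.card = m)).card : ℝ) *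
          (((6 : ℝ) ^ s * (6 * (2 * k : ℝ)) ^ t / t.factorial) * (fm (6 * k) * X)) := by
          rw [Finset.sum_const, nsmul_eq_mul]
      _ ≤ ((2 * k : ℝ) ^ s * 2 ^ s / m.factorial) *
          (((6 : ℝ) ^ s * (6 * (2 * k : ℝ)) ^ t / t.factorial) * (fm (6 * k) * X)) := by
          apply mul_le_mul_of_nonneg_right _ (by positivity)
          rw [le_div_iff₀ hm0]
          have hc := h2 (2 * k) s m
          have hc' : (((univ.filter (fun π : Equiv.Perm (Fin (2 * k)) =>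
            π.support.card = s ∧ π.cycleType.card = m)).card * m.factorial : ℕ) : ℝ) ≤
            (((2 * k) ^ s * 2 ^ s : ℕ) : ℝ) := by exact_mod_cast hc
          push_cast at hc'
          exact hc'
      _ = fm (6 * k) * (((2 * k : ℝ) ^ s * 2 ^ s / m.factorial) *
          ((6 : ℝ) ^ s * (6 * (2 * k : ℝ)) ^ t / t.factorial) * X) := by ring
      _ ≤ fm (6 * k) * (((111 * Real.exp 3) / (k : ℝ) ^ (1 / 4 : ℝ)) ^ s *
          ((20 * Real.exp 3) ^ t / Real.sqrt t.factorial)) :=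
          mul_le_mul_of_nonneg_left hfin hfm0
      _ = _ := by ring
  · refine le_trans (le_of_eq ?_) hR0
    apply Finset.sum_eq_zero
    intro π hπ
    apply Finset.sum_eq_zero
    intro σ hσ
    exact absurd ⟨π, σ, (Finset.mem_filter.mp hπ).2, (Finset.mem_filter.mp hσ).2⟩ hne

end Pool.Agent.K1H1.CG
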